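import Pool.Agent.H64.GG.TC

set_option autoImplicit false

/-!
# HRD: the height of a radical
-/

namespace Pool.Agent.H41.GG

open NumberField Height Finset Polynomial Pool.Agent.H24.RD Pool.Agent.H23.RDD Pool.Agent.H29.RQ
  Pool.Agent.H29.SX Pool.Agent.H29.LG Pool.Agent.H64.GG

theorem pf_HRD (hHB : Pool.Agent.H24.RD.T_HB) : T_HRD := by
  intro a N θ hN hθ
  have hA : Algebra.IsAlgebraic ℚ Om := AlgebraicClosure.isAlgebraic ℚ
  have h := (hHB Om).2.2.2.1 θ N
  rw [hθ] at h
  have hNr : (0 : ℝ) < N := by exact_mod_cast hN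
  unfold BB
  rw [le_div_iff₀ hNr]
  linarith

end Pool.Agent.H41.GG
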