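import Pool.Agent.H64.GG.TC

set_option autoImplicit false

/-!
# STF: the reductions over the field of the radicals
-/

namespace Pool.Agent.H41.GG

open NumberField Height Finset Polynomial Pool.Agent.H24.RD Pool.Agent.H23.RDD Pool.Agent.H29.RQ
  Pool.Agent.H29.SX Pool.Agent.H29.LG Pool.Agent.H64.GG

instance algOm : Algebra.IsAlgebraic ℚ Om := AlgebraicClosure.isAlgebraic ℚ

theorem fd_FT {r : ℕ} (θ : Fin r → Om) : FiniteDimensional ℚ (FT θ) := by
  unfold FT
  haveI : Finite (Set.range θ) := Set.finite_range θ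
  exact IntermediateField.finiteDimensional_adjoin fun x _ =>
    (Algebra.IsAlgebraic.isAlgebraic (R := ℚ) x).isIntegral

theorem fin_roots {R : Type} [CommRing R] [IsDomain R] {m : ℕ} (hm : 0 < m) :
    {z : R | z ^ m = 1}.Finite := by
  classical
  refine ((nthRoots m (1 : R)).toFinset.finite_toSet).subset ?_
  intro z hz
  simp only [Finset.mem_coe, Multiset.mem_toFinset]
  exact (mem_nthRoots hm).2 hz

theorem fd_CY {m : ℕ} (hm : 0 < m) : FiniteDimensional ℚ (CY m) := by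
  unfold CY
  haveI : Finite {z : Om | z ^ m = 1} := (fin_roots hm).to_subtype
  exact IntermediateField.finiteDimensional_adjoin fun x _ =>
    (Algebra.IsAlgebraic.isAlgebraic (R := ℚ) x).isIntegral

theorem fd_Lv (F : IntermediateField ℚ Om) {r : ℕ} (γ : Fin r → F) {m : ℕ} (hm : 0 < m) :
    FiniteDimensional F (Lv F Om γ m 1) := by
  unfold Lv
  haveI : Finite {z : Om | z ^ m = 1 ∨ ∃ i, z ^ 1 = algebraMap F Om (γ i)} := by
    refine Set.Finite.to_subtype ?_
    refine ((fin_roots hm).union (Set.finite_range fun i => algebraMap F Om (γ i))).subset ?_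
    rintro z (hz | ⟨i, hi⟩)
    · exact Or.inl hz
    · rw [pow_one] at hi
      exact Or.inr ⟨i, hi.symm⟩
  haveI : Algebra.IsAlgebraic F Om := Algebra.IsAlgebraic.tower_top (K := ℚ) F
  exact IntermediateField.finiteDimensional_adjoin fun x _ =>
    (Algebra.IsAlgebraic.isAlgebraic (R := F) x).isIntegral

theorem Lv_le {r : ℕ} (θ : Fin r → Om) (F : IntermediateField ℚ Om) (γ : Fin r → F)
    (hγ : ∀ i, (γ i : Om) = θ i) (hF : F = FT θ) (m : ℕ) :
    ∀ z ∈ Lv F Om γ m 1, z ∈ GF θ m := by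
  have hle : F ≤ GF θ m := by
    rw [hF]
    exact IntermediateField.adjoin.mono _ _ _ Set.subset_union_right
  have h : Lv F Om γ m 1 ≤ IntermediateField.extendScalars hle := by
    unfold Lv
    rw [IntermediateField.adjoin_le_iff]
    rintro z (hz | ⟨i, hi⟩)
    · have h1 : z ∈ GF θ m := IntermediateField.subset_adjoin ℚ _ (Or.inl hz)
      exact h1
    · rw [pow_one] at hi
      have h1 : z ∈ GF θ m := by
        rw [hi]
        exact hle (γ i).2
      exact h1
  intro z hz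
  exact h hz

/-- an automorphism over the rational numbers which fixes `F` -/
noncomputable def toF (F : IntermediateField ℚ Om) (σ : Om ≃ₐ[ℚ] Om) (h : ∀ z ∈ F, σ z = z) :
    Om ≃ₐ[F] Om :=
  AlgEquiv.ofRingEquiv (f := σ.toRingEquiv) fun x => h x x.2

theorem ram_unr (hRS : T_RS) (K : IntermediateField ℚ Om) [NumberField K] (p : ℕ) (hp : p.Prime)
    (δ : ℝ) (hδ : δ ≤ 1) (hU : Unr K p) : RamL ℚ Om K p δ := by
  intro M _ hKM w hw x hxK hx1
  letI : Algebra K M := (IntermediateField.inclusion hKM).toAlgebra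
  obtain ⟨v, k, hk, hv⟩ := hRS K M w
  have hxe : x = algebraMap K M ⟨x, hxK⟩ := Subtype.ext rfl
  by_cases hx0 : x = 0
  · rw [hx0, map_zero]
    exact Real.rpow_nonneg (apply_nonneg _ _) _
  · have hvp : w.1 (p : M) = v.1 (p : K) ^ k := by
      have h := hv (p : K)
      rw [map_natCast (algebraMap K M)] at h
      exact h
    have hvp1 : v.1 (p : K) < 1 := by
      by_contra h
      push Not at h
      have := Real.one_le_rpow h hk.le
      rw [← hvp] at this
      linarith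
    have hxK0 : (⟨x, hxK⟩ : K) ≠ 0 := by
      intro h
      apply hx0
      rw [hxe, h, map_zero]
    obtain ⟨n, hn⟩ := hU v hvp1 ⟨x, hxK⟩ hxK0
    have hvpos : 0 < v.1 (p : K) := v.1.pos (by exact_mod_cast hp.ne_zero)
    have hwpos : 0 < w.1 (p : M) := w.1.pos (by exact_mod_cast hp.ne_zero)
    have hwx : w.1 x = (w.1 (p : M)) ^ n := by
      rw [hxe, hv, hn, hvp, ← Real.rpow_intCast, ← Real.rpow_mul hvpos.le, mul_comm,
        Real.rpow_mul hvpos.le, Real.rpow_intCast]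
    have hn1 : 1 ≤ n := by
      by_contra h
      have h0 : n ≤ 0 := by omega
      have h1 : 1 ≤ (w.1 (p : M)) ^ n := one_le_zpow_of_nonpos₀ hwpos hw.le h0
      rw [← hwx] at h1
      linarith
    calc w.1 x = (w.1 (p : M)) ^ (n : ℝ) := by rw [hwx, Real.rpow_intCast]
      _ ≤ (w.1 (p : M)) ^ δ := by
        refine Real.rpow_le_rpow_of_exponent_ge hwpos hw.le ?_
        have : (1 : ℝ) ≤ n := by exact_mod_cast hn1
        linarith

theorem dlt_pos_le {d p : ℕ} (hd : 0 < d) (hp : p.Prime) : 0 < dlt d p ∧ dlt d p ≤ 1 := by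
  have h1 : 0 < Real.log p := Real.log_pos (by exact_mod_cast hp.one_lt)
  have h2 : 0 ≤ Real.log ((d : ℝ) * p) := by
    refine Real.log_nonneg ?_
    have h3 : (1 : ℝ) ≤ d := by exact_mod_cast hd
    have h4 : (1 : ℝ) ≤ p := by exact_mod_cast hp.one_lt.le
    nlinarith
  unfold dlt
  refine ⟨by positivity, ?_⟩
  rw [div_le_one (by positivity)]
  linarith

theorem pf_STF (hRS : T_RS) (hBRG : T_BRG) (hUNF : T_UNF) (hKAB : T_KAB) (hRAMT : T_RAMT)
    (hCYK : T_CYK) (hWLD : Pool.Agent.H29.LG.T_WLD) (hTAME : Pool.Agent.H29.LG.T_TAME)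
    (hNORK : Pool.Agent.H29.LG.T_NORK) : T_STF := by
  intro r a N hG θ hθ m d α hm hd hcop hrep P hP
  classical
  -- the field of the radicals
  obtain ⟨F, hF⟩ : ∃ F, F = FT θ := ⟨_, rfl⟩
  haveI hFfd : FiniteDimensional ℚ F := by
    rw [hF]
    exact fd_FT θ
  haveI : NumberField F := ⟨⟩
  haveI : Algebra.IsAlgebraic F Om := Algebra.IsAlgebraic.tower_top (K := ℚ) F
  have hθF : ∀ i, θ i ∈ F := by
    intro i
    rw [hF]
    exact IntermediateField.subset_adjoin ℚ _ ⟨i, rfl⟩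
  let γ : Fin r → F := fun i => ⟨θ i, hθF i⟩
  have hγθ : ∀ i, (γ i : Om) = θ i := fun i => rfl
  have hθ0 : ∀ i, θ i ≠ 0 := by
    intro i h0
    have h1 := hθ i
    rw [h0, zero_pow (hG.pos i).ne'] at h1
    exact hG.nz i ((map_eq_zero_iff _ (algebraMap ℚ Om).injective).1 h1.symm)
  have hγ0 : ∀ i, γ i ≠ 0 := fun i h0 => hθ0 i (congrArg Subtype.val h0)
  have hFT : F = FT (fun i => (γ i : Om)) := hF
  obtain ⟨hDv, hRep⟩ := hBRG r a N hG F γ hθ hFT
  -- the minimal level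
  have hex : ∃ m', 0 < m' ∧ (∀ i, m'.Coprime (N i)) ∧ RepQ a θ m' d α := ⟨m, hm, hcop, hrep⟩
  obtain ⟨h0, hc0, hr0⟩ := Nat.find_spec hex
  have hmin : ∀ m', m' < Nat.find hex →
      ¬ (0 < m' ∧ (∀ i, m'.Coprime (N i)) ∧ RepQ a θ m' d α) := fun m' h => Nat.find_min hex h
  generalize hm0 : Nat.find hex = m0 at h0 hc0 hr0 hmin
  have hrd0 : RepD F Om γ m0 1 d α := (hRep m0 d α h0).2 hr0
  set P1 := P.filter fun p => ¬ p ∣ ∏ i, N i with hP1
  have hgood : ∀ p ∈ P1, GoodP F γ p := by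
    intro p hp
    obtain ⟨hpP, hpn⟩ := Finset.mem_filter.1 hp
    exact hUNF r a N hG F γ hθ hFT p (hP p hpP).1 hpn (hP p hpP).2.1
  have hp1 : ∀ p ∈ P1, ¬ p ∣ 1 := by
    intro p hp h
    have := (hP p (Finset.mem_filter.1 hp).1).1.one_lt
    have := Nat.le_of_dvd one_pos h
    omega
  have hsq : ∀ p ∈ P1, ¬ p ^ 2 ∣ m0 := by
    intro p hp hdiv
    have hpP := (Finset.mem_filter.1 hp).1
    obtain ⟨hpp, _, hlog, hht⟩ := hP p hpP
    have hw := hWLD F Om r γ hγ0 p (hgood p hp) m0 1 d h0 (one_dvd _) (hp1 p hp) hdiv hd hlog α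
      hrd0 hht
    have hpm : p ∣ m0 := dvd_trans (dvd_pow_self p two_ne_zero) hdiv
    have h1 : 0 < m0 / p := Nat.div_pos (Nat.le_of_dvd h0 hpm) hpp.pos
    refine hmin (m0 / p) (Nat.div_lt_self h0 hpp.one_lt) ⟨h1, fun i => ?_, (hRep _ d α h1).1 hw⟩
    exact Nat.Coprime.coprime_dvd_left (Nat.div_dvd_of_dvd hpm) (hc0 i)
  obtain ⟨β, g, E0, hβ, hg, hαβ, hE0L, hLE0, hnorm, hCj, hRed, hram⟩ := hTAME F Om r γ hγ0 P1 m0 1
    d h0 (one_dvd _) hd (fun p hp => ⟨hgood p hp, hp1 p hp, hsq p hp⟩) α hrd0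
    (fun p hp => (hP p (Finset.mem_filter.1 hp).1).2.2.2)
  have hFE : ∀ z ∈ F, z ∈ E0 := fun z hz => E0.algebraMap_mem ⟨z, hz⟩
  obtain ⟨β', g', n, x, hβ', hg', hprod, hCj', hRed', hgD, hn, hpow, hx⟩ := hNORK F Om r γ hγ0 1
    one_pos θ (fun i => pow_one _) E0 d β g (fun i => hFE _ (hθF i)) hβ hCj hRed hg
  obtain ⟨K, hKC, hKE, hKσ⟩ := hKAB F r γ m0 h0 hFT E0 hE0L hnorm
  haveI hfdC : FiniteDimensional ℚ (CY m0) := fd_CY h0
  haveI hfdK : FiniteDimensional ℚ K := by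
    exact FiniteDimensional.of_injective (IntermediateField.inclusion hKC).toLinearMap
      (IntermediateField.inclusion_injective hKC)
  haveI hfdL : FiniteDimensional F (Lv F Om γ m0 1) := fd_Lv F γ h0
  have hfdE : FiniteDimensional F E0 := by
    exact FiniteDimensional.of_injective (IntermediateField.inclusion hE0L).toLinearMap
      (IntermediateField.inclusion_injective hE0L)
  refine ⟨m0, n, K, E0.restrictScalars ℚ, β', g', x, h0, hc0, hKC, fun z hz => hKE z hz,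
    fun i => hFE _ (hθF i), fun z hz => Lv_le θ F γ hγθ hF m0 z (hE0L hz), hβ', hg', ?_, hn,
    hpow, hx, ?_, ?_, ?_, ?_⟩
  · rw [hprod, hαβ]
  · intro σ h1 h2 z hz
    exact hKσ σ h1 h2 z hz
  · obtain ⟨s, hs, hs'⟩ := hCj'
    exact ⟨s, hs, fun σ hσ => hs' (toF F σ fun z hz => hσ z (hFE z hz)) fun z hz => hσ z hz⟩
  · intro σ hσ k hk h
    exact hRed' (toF F σ fun z hz => hσ z (hFE z hz)) (fun z hz => hσ z hz) k hk h
  · intro p hp
    obtain ⟨hpp, _, hlog, hht⟩ := hP p hp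
    obtain ⟨hd0, hd1⟩ := dlt_pos_le hd hpp
    by_cases hpn : p ∣ ∏ i, N i
    · haveI : NumberField K := ⟨⟩
      have hpm : ¬ p ∣ m0 := by
        intro h
        obtain ⟨i, _, hi⟩ := (hpp.prime.dvd_finset_prod_iff _).1 hpn
        have h3 := Nat.dvd_gcd h hi
        rw [(hc0 i)] at h3
        have := Nat.le_of_dvd one_pos h3
        have := hpp.one_lt
        omega
      exact ram_unr hRS K p hpp _ hd1 (hCYK m0 K h0 hKC p hpp hpm).2
    · exact hRAMT F E0 K p (dlt d p) hpp hd0 hfdE hfdK hKE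
        (hram p (Finset.mem_filter.2 ⟨hp, hpn⟩))

end Pool.Agent.H41.GG
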